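import Pool.Agent.Q100.SS.Small

/-! The complement of an open ball in the sphere is a closed ball. -/

set_option autoImplicit false
set_option linter.unusedSectionVars false

open scoped Topology ContDiff Manifold NNReal RealInnerProductSpace
open Set Metric Filter Module

noncomputable section

namespace Pool.Agent.Q100.SS

open Pool.Agent.Q196.XB

variable {n : ℕ} {E : Type} [NormedAddCommGroup E] [InnerProductSpace ℝ E]
  [Fact (finrank ℝ E = n + 1)]

/-- the parametrization with centre `q` -/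
def tau (n : ℕ) [Fact (finrank ℝ E = n + 1)] (q : sphere (0:E) 1) (y : Eu n) : sphere (0:E) 1 :=
  -((stereographic' n q).symm (-y))

lemma tau_coe (q : sphere (0:E) 1) (y : Eu n) : ((tau n q y : sphere (0:E) 1) : E) = -sg n q (-y) :=
  rfl

lemma neg_ld : IsLocalDiffeomorph (𝓡 n) (𝓡 n) ∞ (fun x : sphere (0:E) 1 => -x) := by
  let D : Diffeomorph (𝓡 n) (𝓡 n) (sphere (0:E) 1) (sphere (0:E) 1) ∞ :=
    { toFun := fun x => -x
      invFun := fun x => -x
      left_inv := fun x => neg_neg x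
      right_inv := fun x => neg_neg x
      contMDiff_toFun := contMDiff_neg_sphere
      contMDiff_invFun := contMDiff_neg_sphere }
  exact D.isLocalDiffeomorph

lemma neg_ldE : IsLocalDiffeomorph (𝓡 n) (𝓡 n) ∞ (fun x : Eu n => -x) := by
  let D : Diffeomorph (𝓡 n) (𝓡 n) (Eu n) (Eu n) ∞ :=
    { toFun := fun x => -x
      invFun := fun x => -x
      left_inv := fun x => neg_neg x
      right_inv := fun x => neg_neg x
      contMDiff_toFun := contDiff_neg.contMDiff
      contMDiff_invFun := contDiff_neg.contMDiff }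
  exact D.isLocalDiffeomorph

lemma tau_ld (q : sphere (0:E) 1) : IsLocalDiffeomorph (𝓡 n) (𝓡 n) ∞ (tau n q) :=
  IsLD_comp neg_ld (IsLD_comp (symm_ld q) neg_ldE)

lemma tau_inj (q : sphere (0:E) 1) : Function.Injective (tau n q) := by
  intro x y h
  have h1 := neg_injective h
  exact neg_injective ((symm_open q).injective h1)

lemma tau_zero (q : sphere (0:E) 1) : tau n q 0 = q := by
  apply Subtype.ext
  rw [tau_coe, neg_zero, sg_eq]
  simp

lemma tau_ne (q : sphere (0:E) 1) (y : Eu n) : tau n q y ≠ -q := by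
  intro h
  have h1 : (stereographic' n q).symm (-y) = q := neg_injective h
  exact sg_ne q (-y) (congrArg Subtype.val h1)

lemma tau_iv (q : sphere (0:E) 1) {z : Eu n} (hz : z ≠ 0) :
    tau n q ((4 / ‖z‖ ^ 2) • z) = (stereographic' n q).symm z := by
  apply Subtype.ext
  rw [tau_coe]
  show -sg n q (-((4 / ‖z‖ ^ 2) • z)) = sg n q z
  have hz' : 0 < ‖z‖ := norm_pos_iff.2 hz
  have h1 : ‖-((4 / ‖z‖ ^ 2) • z)‖ ^ 2 = 16 / ‖z‖ ^ 2 := by
    rw [norm_neg, norm_smul, Real.norm_eq_abs, abs_of_pos (show 0 < 4 / ‖z‖ ^ 2 by positivity)]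
    field_simp
    norm_num
  rw [sg_eq, sg_eq, h1, map_neg, map_smul]
  simp only [Submodule.coe_neg, Submodule.coe_smul]
  set w : E := ((U n q).symm z : E) with hw
  have h2 : ‖z‖ ^ 2 + 4 ≠ 0 := by positivity
  have h3 : 16 / ‖z‖ ^ 2 + 4 ≠ 0 := by positivity
  rw [smul_neg, smul_smul, smul_add, smul_neg, smul_smul, smul_smul, neg_add, neg_neg, smul_add,
    smul_smul, smul_smul, ← neg_smul]
  congr 2
  · field_simp
    ring
  · field_simp
    ring

lemma symm_zero (q : sphere (0:E) 1) : (stereographic' n q).symm 0 = -q := by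
  apply Subtype.ext
  show sg n q 0 = _
  rw [sg_eq]
  simp

/-- the complement of a small ball -/
theorem small_ball {Φ : Eu n → sphere (0:E) 1} (hΦ : Topology.IsOpenEmbedding Φ)
    (hd : IsLocalDiffeomorph (𝓡 n) (𝓡 n) ∞ Φ) :
    ∃ δ : ℝ, 0 < δ ∧ δ < 1 ∧ ∃ Θ : Eu n → sphere (0:E) 1, Topology.IsOpenEmbedding Θ ∧
      IsLocalDiffeomorph (𝓡 n) (𝓡 n) ∞ Θ ∧ Θ '' closedBall 0 1 = (Φ '' ball 0 δ)ᶜ := by
  set c := Φ 0 with hc
  set L := (hd 0).localInverse with hL
  have hLo : IsOpen L.source := (hd 0).localInverse_open_source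
  have hLm : c ∈ L.source := (hd 0).localInverse_mem_source
  have hLr : ∀ x ∈ L.source, Φ (L x) = x := fun x hx => (hd 0).localInverse_right_inv hx
  have hLl : ∀ w ∈ L.target, L (Φ w) = w := fun w hw => (hd 0).localInverse_left_inv hw
  have hLto : IsOpen L.target := L.open_target
  have h0t : (0 : Eu n) ∈ L.target := (hd 0).localInverse_mem_target
  set om : Eu n → Eu n := fun y => L (tau n c y) with hom
  have hτc : Continuous (tau n c) := (tau_ld c).contMDiff.continuous
  set O : Set (Eu n) := tau n c ⁻¹' L.source with hO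
  have hOo : IsOpen O := hLo.preimage hτc
  have h0O : (0 : Eu n) ∈ O := by
    show tau n c 0 ∈ L.source
    rw [tau_zero]; exact hLm
  have homs : ContDiffOn ℝ ∞ om O := by
    rw [← contMDiffOn_iff_contDiffOn]
    have h1 : ContMDiffOn (𝓡 n) (𝓡 n) ∞ L L.source := L.contMDiffOn_toFun
    exact h1.comp (tau_ld c).contMDiff.contMDiffOn (fun y hy => hy)
  have hom0 : om 0 = 0 := by
    show L (tau n c 0) = 0
    rw [tau_zero]
    exact hLl 0 h0t
  have hinj : ∀ v, fderiv ℝ om 0 v = 0 → v = 0 := by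
    have h1 : IsLocalDiffeomorphAt (𝓡 n) (𝓡 n) ∞ om 0 := by
      refine IsLocalDiffeomorphAt.comp _ _ (tau_ld c 0) ?_
      rw [tau_zero]
      exact (hd 0).localInverse_isLocalDiffeomorphAt
    intro v hv
    have h2 := h1.mfderivToContinuousLinearEquiv_coe (by simp)
    set A := h1.mfderivToContinuousLinearEquiv (by simp) with hA
    have h3 : A v = 0 := by
      have h4 : (A : TangentSpace (𝓡 n) (0 : Eu n) →L[ℝ] TangentSpace (𝓡 n) (om 0)) v = A v := rfl
      rw [← h4, h2, mfderiv_eq_fderiv]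
      exact hv
    exact A.injective (h3.trans (map_zero A).symm)
  obtain ⟨ε, m, hε, hm, hb, h1, h2⟩ := local_star hOo h0O homs hom0 hinj
  -- choice of δ
  have hτo : IsOpen (tau n c '' ball 0 (ε / 3)) := (tau_ld c).isOpenMap _ isOpen_ball
  have hcmem : Φ 0 ∈ tau n c '' ball 0 (ε / 3) :=
    ⟨0, mem_ball_self (by positivity), tau_zero c⟩
  have hn1 : Φ ⁻¹' (tau n c '' ball 0 (ε / 3)) ∩ L.target ∈ 𝓝 (0 : Eu n) :=
    Filter.inter_mem (hΦ.continuous.continuousAt.preimage_mem_nhds (hτo.mem_nhds hcmem))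
      (hLto.mem_nhds h0t)
  obtain ⟨r, hr, hrb⟩ := Metric.mem_nhds_iff.1 hn1
  obtain ⟨δ, hδ0, hδ⟩ := exists_between (show 0 < min r (min 1 (m * (ε / 3))) by positivity)
  have hδr : δ < r := hδ.trans_le (min_le_left _ _)
  have hδ1 : δ < 1 := hδ.trans_le ((min_le_right _ _).trans (min_le_left _ _))
  have hδ2 : δ < m * (ε / 3) := hδ.trans_le ((min_le_right _ _).trans (min_le_right _ _))
  obtain ⟨Θ, hΘ⟩ := inv_star hε hm (homs.mono hb) hom0 h1 h2 hδ0 hδ1 hδ2
  refine ⟨δ, hδ0, hδ1, (stereographic' n c).symm ∘ Θ,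
    (symm_open c).comp Θ.toHomeomorph.isOpenEmbedding, IsLD_comp (symm_ld c) Θ.isLocalDiffeomorph,
    ?_⟩
  have hsub : ∀ w ∈ ball (0 : Eu n) δ, Φ w ∈ tau n c '' ball 0 (ε / 3) ∧ w ∈ L.target := by
    intro w hw
    exact hrb (ball_subset_ball hδr.le hw)
  -- membership in the small ball
  have hmem : ∀ y : Eu n, tau n c y ∈ Φ '' ball 0 δ ↔ (‖y‖ < ε / 3 ∧ ‖om y‖ < δ) := by
    intro y
    constructor
    · rintro ⟨w, hw, hwy⟩
      obtain ⟨⟨y', hy', hyy⟩, hwt⟩ := hsub w hw
      have h3 : y' = y := tau_inj c (hyy.trans hwy)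
      rw [h3] at hy'
      refine ⟨by simpa using hy', ?_⟩
      show ‖L (tau n c y)‖ < δ
      rw [← hwy, hLl w hwt]
      simpa using hw
    · rintro ⟨hy1, hy2⟩
      have hyO : y ∈ O := hb (by rw [mem_ball_zero_iff]; linarith)
      exact ⟨om y, by simpa using hy2, hLr _ hyO⟩
  ext x
  rw [image_comp]
  constructor
  · rintro ⟨z, hz, rfl⟩
    have h3 := (hΘ z).1 hz
    by_cases hz0 : z = 0
    · rw [hz0, symm_zero]
      rintro ⟨w, hw, hwy⟩
      obtain ⟨⟨y', -, hyy⟩, -⟩ := hsub w hw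
      exact tau_ne c y' (hyy.trans hwy)
    · rw [← tau_iv c hz0]
      intro h4
      exact h3 hz0 ((hmem _).1 h4)
  · intro hx
    have hxc : x ≠ c := by
      rintro rfl
      exact hx ⟨0, mem_ball_self hδ0, rfl⟩
    have hxs : x ∈ (stereographic' n c).source := by simpa using hxc
    refine ⟨stereographic' n c x, ?_, (stereographic' n c).left_inv hxs⟩
    rw [hΘ]
    intro hz0 h4
    have h5 := (hmem _).2 h4
    rw [tau_iv c hz0, (stereographic' n c).left_inv hxs] at h5
    exact hx h5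

/-- **The complement of an open ball in the sphere is a closed ball.** -/
theorem compl_ball {Φ : Eu n → sphere (0:E) 1} (hΦ : Topology.IsOpenEmbedding Φ)
    (hd : IsLocalDiffeomorph (𝓡 n) (𝓡 n) ∞ Φ) : IsBallS n (Φ '' ball 0 1)ᶜ := by
  obtain ⟨δ, hδ0, hδ1, Θ, h1, h2, h3⟩ := small_ball hΦ hd
  obtain ⟨H, k1, k2, k3, k4⟩ := exists_scale (E := Eu n) hδ0 hδ1
  obtain ⟨G, g1, g2, g3⟩ := extend hΦ hd k1 k2 k3
  have hld : IsLocalDiffeomorph (𝓡 n) (𝓡 n) ∞ (G ∘ Θ) := IsLD_comp g2 h2
  refine ⟨G ∘ Θ, ?_, hld, ?_⟩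
  · exact hld.isLocalHomeomorph.isOpenEmbedding_of_injective (g1.1.comp h1.injective)
  · rw [image_comp, h3, image_compl_eq g1, ← image_comp]
    congr 1
    have : G ∘ Φ = Φ ∘ H := funext g3
    rw [this, image_comp, k4]

/-- one side is a ball if and only if the other is -/
theorem other_side {R : E → ℝ} (hR : ContDiff ℝ ∞ R)
    (hreg : ∀ x, ‖x‖ = 1 → R x = 0 → ∃ v, ⟪x, v⟫ = 0 ∧ fderiv ℝ R x v ≠ 0)
    (h : IsBallS n {x : sphere (0:E) 1 | R x ≤ 0}) :
    IsBallS n {x : sphere (0:E) 1 | 0 ≤ R x} := by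
  obtain ⟨Φ, h1, h2, h3⟩ := h
  have h4 := compl_ball h1 h2
  have h5 : (Φ '' ball 0 1)ᶜ = {x : sphere (0:E) 1 | 0 ≤ R x} := by
    have hRc : Continuous (fun x : sphere (0:E) 1 => R x) :=
      hR.continuous.comp continuous_subtype_val
    have key : Φ '' ball 0 1 = {x : sphere (0:E) 1 | R x < 0} := by
      apply Subset.antisymm
      · rintro _ ⟨w, hw, rfl⟩
        have hw' : Φ w ∈ {x : sphere (0:E) 1 | R x ≤ 0} := by
          rw [← h3]; exact ⟨w, ball_subset_closedBall hw, rfl⟩
        have hw'' : R (Φ w) ≤ 0 := hw'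
        by_contra hno
        have h0 : R (Φ w) = 0 := le_antisymm hw'' (not_lt.1 hno)
        obtain ⟨v, hv1, hv2⟩ := hreg (Φ w) (by simp) h0
        -- curve
        have hop : IsOpen (Φ '' ball 0 1) := h1.isOpenMap _ isOpen_ball
        have hnb : ∀ᶠ x : sphere (0:E) 1 in 𝓝 (Φ w), R (x : E) ≤ 0 := by
          filter_upwards [hop.mem_nhds ⟨w, hw, rfl⟩] with x hx
          have : x ∈ {x : sphere (0:E) 1 | R x ≤ 0} := by
            rw [← h3]; exact image_mono ball_subset_closedBall hx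
          exact this
        set x : E := (Φ w : E) with hx
        have hxn : ‖x‖ = 1 := by simp [hx]
        have hpos : ∀ t : ℝ, ‖x + t • v‖ ^ 2 = 1 + t ^ 2 * ‖v‖ ^ 2 := by
          intro t
          rw [norm_add_sq_real, inner_smul_right, hv1, norm_smul, hxn, mul_pow]
          simp
        have hne : ∀ t : ℝ, ‖x + t • v‖ ≠ 0 := by
          intro t h0
          have := hpos t
          rw [h0] at this
          nlinarith [sq_nonneg (t * ‖v‖)]
        have hnd : HasDerivAt (fun t : ℝ => ‖x + t • v‖) 0 0 := by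
          have h1 : (fun t : ℝ => ‖x + t • v‖) = fun t => Real.sqrt (1 + t ^ 2 * ‖v‖ ^ 2) := by
            funext t
            rw [← hpos, Real.sqrt_sq (norm_nonneg _)]
          rw [h1]
          have h2 : HasDerivAt (fun t : ℝ => 1 + t ^ 2 * ‖v‖ ^ 2) 0 0 := by
            have := ((hasDerivAt_pow 2 (0:ℝ)).mul_const (‖v‖ ^ 2)).const_add 1
            simpa using this
          have := h2.sqrt (by simp)
          simpa using this
        have hγ : HasDerivAt (fun t : ℝ => ‖x + t • v‖⁻¹ • (x + t • v)) v 0 := by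
          have h1 : HasDerivAt (fun t : ℝ => x + t • v) v 0 := by
            simpa using ((hasDerivAt_id (0:ℝ)).smul_const v).const_add x
          have h2 := hnd.inv (hne 0)
          have h3 := h2.smul h1
          refine h3.congr_deriv ?_
          simp [hxn]
        have hγ0 : ‖x + (0:ℝ) • v‖⁻¹ • (x + (0:ℝ) • v) = x := by simp [hxn]
        have hγn : ∀ t : ℝ, ‖‖x + t • v‖⁻¹ • (x + t • v)‖ = 1 := by
          intro t
          rw [norm_smul, norm_inv, norm_norm, inv_mul_cancel₀ (hne t)]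
        set γ : ℝ → sphere (0:E) 1 := fun t =>
          ⟨‖x + t • v‖⁻¹ • (x + t • v), by rw [mem_sphere_zero_iff_norm]; exact hγn t⟩ with hγd
        have hγc : ContinuousAt γ 0 := by
          rw [Topology.IsInducing.subtypeVal.continuousAt_iff]
          exact hγ.continuousAt
        have hγ0' : γ 0 = Φ w := Subtype.ext hγ0
        have hlm : IsLocalMax (fun t => R (γ t)) 0 := by
          have h6 : ∀ᶠ t in 𝓝 (0:ℝ), R (γ t : E) ≤ 0 := by
            have h7 : Tendsto γ (𝓝 0) (𝓝 (Φ w)) := by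
              rw [← hγ0']; exact hγc
            exact h7.eventually hnb
          filter_upwards [h6] with t ht
          rw [hγ0', h0]
          exact ht
        have hder : HasDerivAt (fun t => R (γ t)) (fderiv ℝ R x v) 0 := by
          have h6 : HasFDerivAt R (fderiv ℝ R x) (‖x + (0:ℝ) • v‖⁻¹ • (x + (0:ℝ) • v)) := by
            rw [hγ0]; exact (hR.differentiable (by simp) x).hasFDerivAt
          exact h6.comp_hasDerivAt 0 hγ
        exact hv2 (hlm.hasDerivAt_eq_zero hder)
      · have hop : IsOpen {x : sphere (0:E) 1 | R x < 0} := isOpen_lt hRc continuous_const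
        intro x hx
        have hx' : x ∈ Φ '' closedBall 0 1 := by rw [h3]; exact le_of_lt (show R x < 0 from hx)
        obtain ⟨w, hw, rfl⟩ := hx'
        refine ⟨w, ?_, rfl⟩
        have h6 : Φ ⁻¹' {x : sphere (0:E) 1 | R x < 0} ⊆ closedBall 0 1 := by
          intro w' hw'
          have h7 : Φ w' ∈ Φ '' closedBall 0 1 := by
            rw [h3]; exact le_of_lt (show R (Φ w') < 0 from hw')
          obtain ⟨w'', h8, h9⟩ := h7
          rw [← h1.injective h9]; exact h8
        have h7 : Φ ⁻¹' {x : sphere (0:E) 1 | R x < 0} ⊆ ball 0 1 := by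
          rw [← interior_closedBall (0 : Eu n) one_ne_zero]
          exact interior_maximal h6 (hop.preimage h1.continuous)
        exact h7 hx
    rw [key]
    ext x
    simp
  rw [← h5]
  exact h4

end Pool.Agent.Q100.SS
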