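import Pool.Agent.Q196.XB.Final1

/-! The theorem on outward normal rays for a domain of Euclidean space. -/

set_option autoImplicit false
set_option linter.unusedSectionVars false

open scoped Topology ContDiff Manifold RealInnerProductSpace Gradient
open Set Metric Filter

noncomputable section

namespace Pool.Agent.Q100.SS

open Pool.Agent.Q196.XB

variable {E : Type} [NormedAddCommGroup E] [InnerProductSpace ℝ E] [FiniteDimensional ℝ E]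

lemma id_ld : IsLocalDiffeomorph 𝓘(ℝ, E) 𝓘(ℝ, E) ∞ (id : E → E) := by
  have := (Diffeomorph.refl 𝓘(ℝ, E) E ∞).isLocalDiffeomorph
  exact this

lemma gr_id {g : E → ℝ} {x : E} (hg : DifferentiableAt ℝ g x) : gr (id : E → E) g x = ∇ g x :=
  gr_comp id_ld x hg

lemma sec_id : Sec (id : E → E) univ id where
  isOpen := isOpen_univ
  right := fun _ _ => rfl
  smooth := contMDiff_id.contMDiffOn
  image := by simp

lemma hs_id {g : E → ℝ} (hg : ContDiff ℝ ∞ g) (x v : E) :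
    hs (id : E → E) g x v = ⟪fderiv ℝ (∇ g) x v, v⟫ :=
  hs_sec id_ld hg.contMDiff sec_id (by simp) v

/-- second derivative along curves in the boundary -/
lemma curve_second {g : E → ℝ} (hg : ContDiff ℝ ∞ g) {x p v : E} {s : ℝ} (hs : x + s • ∇ g x = p)
    (hv : ‖v‖ ^ 2 + s * ⟪fderiv ℝ (∇ g) x v, v⟫ ≤ 0) {γ : ℝ → E} (hγ : ContDiffAt ℝ 2 γ 0)
    (h0 : γ 0 = x) (h1 : deriv γ 0 = v) (hM : ∀ᶠ t in 𝓝 0, g (γ t) = 0) :
    deriv (deriv fun t => ‖γ t - p‖ ^ 2) 0 ≤ 0 := by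
  have hev : ∀ᶠ t in 𝓝 (0:ℝ), ContDiffAt ℝ 2 γ t := hγ.eventually (by simp)
  have hd : ∀ᶠ t in 𝓝 (0:ℝ), HasDerivAt γ (deriv γ t) t := hev.mono fun t ht =>
    (ht.differentiableAt (by simp)).hasDerivAt
  have hd2 : HasDerivAt (deriv γ) (deriv (deriv γ) 0) 0 := by
    have h : ContDiffAt ℝ 1 (deriv γ) 0 := by
      have h2 : ContDiffAt ℝ 1 (fderiv ℝ γ) 0 := hγ.fderiv_right (by norm_num)
      exact h2.clm_apply contDiffAt_const
    exact (h.differentiableAt (by simp)).hasDerivAt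
  -- first derivative of the squared distance
  have hf1 : deriv (fun t => ‖γ t - p‖ ^ 2) =ᶠ[𝓝 0] fun t => 2 * ⟪γ t - p, deriv γ t⟫ := by
    filter_upwards [hd] with t ht
    exact ((ht.sub_const p).norm_sq).deriv
  have hf2 : HasDerivAt (fun t => 2 * ⟪γ t - p, deriv γ t⟫)
      (2 * (⟪γ 0 - p, deriv (deriv γ) 0⟫ + ⟪deriv γ 0, deriv γ 0⟫)) 0 :=
    (((hd.self_of_nhds).sub_const p).inner ℝ hd2).const_mul 2
  rw [hf1.deriv_eq, hf2.deriv, h0, h1]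
  -- the constraint
  have hgd : ∀ y, HasGradientAt g (∇ g y) y := fun y =>
    (hg.differentiable (by simp) y).hasGradientAt
  have hg1 : ∀ᶠ t in 𝓝 (0:ℝ), ⟪∇ g (γ t), deriv γ t⟫ = 0 := by
    have h2 : ∀ᶠ t in 𝓝 (0:ℝ), ∀ᶠ r in 𝓝 t, g (γ r) = 0 := eventually_eventually_nhds.2 hM
    filter_upwards [hd, h2] with t ht ht2
    have h3 : HasDerivAt (fun r => g (γ r)) ⟪∇ g (γ t), deriv γ t⟫ t := by
      have := (hgd (γ t)).hasFDerivAt.comp_hasDerivAt t ht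
      refine this.congr_deriv ?_
      simp
    have h4 : (fun r => g (γ r)) =ᶠ[𝓝 t] fun _ => (0:ℝ) := ht2
    rw [← h3.deriv, h4.deriv_eq, deriv_const]
  have hgs : ContDiff ℝ ∞ (∇ g) := by
    unfold gradient
    exact (InnerProductSpace.toDual ℝ E).symm.contDiff.comp (hg.fderiv_right (m := ∞) (by simp))
  have hg2 : HasDerivAt (fun t => ⟪∇ g (γ t), deriv γ t⟫)
      (⟪∇ g (γ 0), deriv (deriv γ) 0⟫ + ⟪fderiv ℝ (∇ g) (γ 0) (deriv γ 0), deriv γ 0⟫) 0 := by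
    have h5 : HasDerivAt (fun t => ∇ g (γ t)) (fderiv ℝ (∇ g) (γ 0) (deriv γ 0)) 0 :=
      ((hgs.differentiable (by simp) (γ 0)).hasFDerivAt).comp_hasDerivAt 0 hd.self_of_nhds
    exact h5.inner ℝ hd2
  have hg3 : ⟪∇ g x, deriv (deriv γ) 0⟫ + ⟪fderiv ℝ (∇ g) x v, v⟫ = 0 := by
    rw [← h0, ← h1]
    have h6 : (fun t => ⟪∇ g (γ t), deriv γ t⟫) =ᶠ[𝓝 0] fun _ => (0:ℝ) := hg1
    rw [← hg2.deriv, h6.deriv_eq, deriv_const]
  have h7 : x - p = -(s • ∇ g x) := by rw [← hs]; abel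
  rw [h7, inner_neg_left, inner_smul_left, real_inner_self_eq_norm_sq]
  simp only [conj_trivial]
  have h8 : ⟪∇ g x, deriv (deriv γ) 0⟫ = -⟪fderiv ℝ (∇ g) x v, v⟫ := by linarith
  rw [h8]
  linarith

theorem eu_rays {ρ : E → ℝ} (hρ : ContDiff ℝ ∞ ρ) (hreg : ∀ x, ρ x = 0 → ∇ ρ x ≠ 0)
    (hcomp : IsCompact {x | ρ x ≤ 0}) (hconn : IsConnected {x | ρ x ≤ 0})
    (hball : ¬IsBall E {x | ρ x ≤ 0}) (p : E) :
    ∃ x, ρ x = 0 ∧ ∃ s : ℝ, 0 ≤ s ∧ x + s • ∇ ρ x = p := by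
  have hg : ∀ x, gr (id : E → E) ρ x = ∇ ρ x := fun x => gr_id (hρ.differentiable (by simp) x)
  obtain ⟨x, hx, s, hs, h⟩ := cover (u := (id : E → E)) id_ld hρ.contMDiff
    (fun x hx => by rw [hg]; exact hreg x hx) hcomp hconn hball p
  exact ⟨x, hx, s, hs, by rw [hg] at h; exact h⟩

theorem eu_curved {ρ : E → ℝ} (hρ : ContDiff ℝ ∞ ρ) (hreg : ∀ x, ρ x = 0 → ∇ ρ x ≠ 0)
    (hcomp : IsCompact {x | ρ x ≤ 0}) (hconn : IsConnected {x | ρ x ≤ 0})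
    (hball : ¬IsBall E {x | ρ x ≤ 0}) {p : E} (hp : ρ p < 0) :
    ∃ x, ρ x = 0 ∧ ∃ s : ℝ, 0 < s ∧ x + s • ∇ ρ x = p ∧
      (¬∀ᶠ y in 𝓝 x, ρ y ≤ 0 → y ≠ x → ‖x - p‖ < ‖y - p‖) ∧
      ∃ v, v ≠ 0 ∧ ⟪∇ ρ x, v⟫ = 0 ∧ ‖v‖ ^ 2 + s * ⟪fderiv ℝ (∇ ρ) x v, v⟫ ≤ 0 := by
  have hg : ∀ x, gr (id : E → E) ρ x = ∇ ρ x := fun x => gr_id (hρ.differentiable (by simp) x)
  obtain ⟨x, hx, s, hs, h, h1, v, hv, hv1, hv2⟩ := curved (u := (id : E → E)) id_ld hρ.contMDiff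
    (fun x hx => by rw [hg]; exact hreg x hx) hcomp hconn hball (p := p) (q := p) hp.le rfl
    (fun x hx h => by
      have : x = p := h
      rw [this] at hx
      exact hp.ne hx)
  rw [hg] at h hv1
  rw [hs_id hρ] at hv2
  exact ⟨x, hx, s, hs, h, h1, v, hv, hv1, hv2⟩

end Pool.Agent.Q100.SS
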