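import Pool.Agent.Q100.SS.Sph

/-! Circles orthogonal to the boundary of an exotic domain of the sphere. -/

set_option autoImplicit false
set_option linter.unusedSectionVars false

open scoped Topology ContDiff Manifold RealInnerProductSpace Gradient
open Set Metric Filter Module

noncomputable section

namespace Pool.Agent.Q100.SS

open Pool.Agent.Q196.XB

variable {n : ℕ} {E : Type} [NormedAddCommGroup E] [InnerProductSpace ℝ E]
  [Fact (finrank ℝ E = n + 1)]

/-- `W` is a smoothly embedded closed ball -/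
def IsBallS (n : ℕ) [Fact (finrank ℝ E = n + 1)] (W : Set (sphere (0:E) 1)) : Prop :=
  ∃ Φ : Eu n → sphere (0:E) 1, Topology.IsOpenEmbedding Φ ∧
    IsLocalDiffeomorph (𝓡 n) (𝓡 n) ∞ Φ ∧ Φ '' closedBall 0 1 = W

lemma symm_open (q : sphere (0:E) 1) :
    Topology.IsOpenEmbedding (stereographic' n q).symm := by
  have h : (stereographic' n q).symm.source = univ := by simp
  exact (stereographic' n q).symm.to_isOpenEmbedding h

lemma symm_ld (q : sphere (0:E) 1) :
    IsLocalDiffeomorph (𝓡 n) (𝓡 n) ∞ (stereographic' n q).symm := by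
  intro y
  have hq : stereographic' n q = chartAt (Eu n) (-q) := by
    show _ = stereographic' n (- -q)
    rw [neg_neg]
  haveI : IsManifold (𝓡 n) ∞ (sphere (0:E) 1) := IsManifold.of_le (n := ω) le_top
  have h1 : ContMDiffOn (𝓡 n) (𝓡 n) ∞ (stereographic' n q) (stereographic' n q).source := by
    rw [hq]; exact contMDiffOn_chart
  have h2 : ContMDiffOn (𝓡 n) (𝓡 n) ∞ (stereographic' n q).symm (stereographic' n q).target := by
    rw [hq]; exact contMDiffOn_chart_symm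
  refine ⟨⟨(stereographic' n q).symm.toPartialEquiv, (stereographic' n q).symm.open_source,
    (stereographic' n q).symm.open_target, h2, h1⟩, by simp, fun z _ => rfl⟩

lemma two_le : (2 : WithTop ℕ∞) ≤ ∞ := by
  have : (2 : WithTop ℕ∞) = ((2 : ℕ∞) : WithTop ℕ∞) := rfl
  rw [this]
  exact WithTop.coe_le_coe.2 le_top

lemma IsLD_comp {A B C : Type} [TopologicalSpace A] [TopologicalSpace B] [TopologicalSpace C]
    [ChartedSpace (Eu n) A] [ChartedSpace (Eu n) B] [ChartedSpace (Eu n) C] {f : A → B} {g : B → C}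
    (hg : IsLocalDiffeomorph (𝓡 n) (𝓡 n) ∞ g) (hf : IsLocalDiffeomorph (𝓡 n) (𝓡 n) ∞ f) :
    IsLocalDiffeomorph (𝓡 n) (𝓡 n) ∞ (g ∘ f) := by
  intro x
  exact IsLocalDiffeomorphAt.comp _ _ (hf x) (hg (f x))

/-- transfer of the hypotheses -/
theorem transfer {R : E → ℝ} (hR : ContDiff ℝ ∞ R)
    (hreg : ∀ x, ‖x‖ = 1 → R x = 0 → ∃ v, ⟪x, v⟫ = 0 ∧ fderiv ℝ R x v ≠ 0)
    (hconn : IsConnected {x : sphere (0:E) 1 | R x ≤ 0})
    (hball : ¬IsBallS n {x : sphere (0:E) 1 | R x ≤ 0})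
    (q : sphere (0:E) 1) (hq : 0 < R q) :
    ContDiff ℝ ∞ (R ∘ sg n q) ∧
    (∀ y w, fderiv ℝ (R ∘ sg n q) y w = fderiv ℝ R (sg n q y) (fderiv ℝ (sg n q) y w)) ∧
    (∀ y, (R ∘ sg n q) y = 0 → ∇ (R ∘ sg n q) y ≠ 0) ∧ IsCompact {y | (R ∘ sg n q) y ≤ 0} ∧
    IsConnected {y | (R ∘ sg n q) y ≤ 0} ∧ ¬IsBall (Eu n) {y | (R ∘ sg n q) y ≤ 0} := by
  have hs := sg_smooth (n := n) q
  have hc : ContDiff ℝ ∞ (R ∘ sg n q) := hR.comp hs
  have hd : ∀ y w, fderiv ℝ (R ∘ sg n q) y w =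
      fderiv ℝ R (sg n q y) (fderiv ℝ (sg n q) y w) := by
    intro y w
    rw [fderiv_comp y (hR.differentiable (by simp) _) (hs.differentiable (by simp) _)]
    rfl
  have hset : {y : Eu n | (R ∘ sg n q) y ≤ 0} =
      (stereographic' n q) '' {x : sphere (0:E) 1 | R x ≤ 0} := by
    ext y
    constructor
    · intro hy
      exact ⟨(stereographic' n q).symm y, hy, (stereographic' n q).right_inv (by simp)⟩
    · rintro ⟨x, hx, rfl⟩
      have hx' : R x ≤ 0 := hx
      show R (sg n q (stereographic' n q x)) ≤ 0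
      rw [← pr_eq, sg_pr q (by simp)]
      · exact hx'
      · intro h
        rw [h] at hx'
        exact absurd hx' (not_le.2 hq)
  have hsub : {x : sphere (0:E) 1 | R x ≤ 0} ⊆ (stereographic' n q).source := by
    intro x hx
    simp only [stereographic'_source, mem_compl_iff, mem_singleton_iff]
    rintro rfl
    exact absurd (show R x ≤ 0 from hx) (not_le.2 hq)
  have hcon : ContinuousOn (stereographic' n q) {x : sphere (0:E) 1 | R x ≤ 0} :=
    (stereographic' n q).continuousOn.mono hsub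
  refine ⟨hc, hd, ?_, ?_, ?_, ?_⟩
  · intro y hy h0
    obtain ⟨v, hv1, hv2⟩ := hreg (sg n q y) (norm_sg q y) hy
    apply hv2
    have h1 := dsg_surj (n := n) q (norm_sg q y) (sg_ne (n := n) q y) hv1
    rw [pr_sg] at h1
    rw [← h1, ← hd]
    have h2 : HasGradientAt (R ∘ sg n q) (∇ (R ∘ sg n q) y) y :=
      (hc.differentiable (by simp) y).hasGradientAt
    rw [h0] at h2
    rw [h2.hasFDerivAt.fderiv]
    simp
  · rw [hset]
    haveI : FiniteDimensional ℝ E := FiniteDimensional.of_fact_finrank_eq_succ n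
    haveI : ProperSpace E := FiniteDimensional.proper ℝ E
    have hcl : IsClosed {x : sphere (0:E) 1 | R x ≤ 0} :=
      isClosed_le (hR.continuous.comp continuous_subtype_val) continuous_const
    exact hcl.isCompact.image_of_continuousOn hcon
  · rw [hset]
    exact hconn.image _ hcon
  · rintro ⟨Φ, h1, h2, h3⟩
    refine hball ⟨(stereographic' n q).symm ∘ Φ, (symm_open q).comp h1, IsLD_comp (symm_ld q) h2, ?_⟩
    rw [image_comp, h3, hset]
    ext x
    constructor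
    · rintro ⟨_, ⟨z, hz, rfl⟩, rfl⟩
      rw [(stereographic' n q).left_inv (hsub hz)]
      exact hz
    · intro hx
      exact ⟨_, ⟨x, hx, rfl⟩, (stereographic' n q).left_inv (hsub hx)⟩

lemma alg {g s a b A B K : ℝ} (hs : 0 < s) (hA : 0 < A) (hB : 0 < B)
    (h : 2 * -(s * g) * B ^ 2 = 2 * (a * B - b * A) * K) :
    g = K * (A / B) / s * (-a / A - -b / B) := by
  have h1 : -a / A - -b / B = -(a * B - b * A) / (A * B) := by
    field_simp
    ring
  rw [h1]
  have h2 : s * g * B ^ 2 = -(a * B - b * A) * K := by linarith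
  field_simp
  linarith

lemma Qt_deriv {p q x : E} (hq : x ≠ q) (v : E) :
    HasFDerivAt (Qt p q) (fderiv ℝ (Qt p q) x) x ∧
    fderiv ℝ (Qt p q) x v = 2 * (⟪x - p, v⟫ * ‖x - q‖ ^ 2 - ⟪x - q, v⟫ * ‖x - p‖ ^ 2) /
      (‖x - q‖ ^ 2) ^ 2 := by
  have hq' : ‖x - q‖ ^ 2 ≠ 0 := by
    have := norm_ne_zero_iff.2 (sub_ne_zero.2 hq)
    positivity
  have h1 := ((hasFDerivAt_id (𝕜 := ℝ) x).sub_const p).norm_sq
  have h2 := ((hasFDerivAt_id (𝕜 := ℝ) x).sub_const q).norm_sq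
  have h2' := (hasDerivAt_inv hq').comp_hasFDerivAt x h2
  have h3 := h1.mul h2'
  have hfun : Qt p q = fun z => ‖id z - p‖ ^ 2 * ((fun y : ℝ => y⁻¹) ∘ fun z => ‖id z - q‖ ^ 2) z := by
    funext z
    simp only [Qt, Function.comp_apply, div_eq_mul_inv]
    rfl
  have h5 : Qt p q =ᶠ[𝓝 x] fun z => ‖id z - p‖ ^ 2 * ((fun y : ℝ => y⁻¹) ∘ fun z => ‖id z - q‖ ^ 2) z := by
    rw [hfun]
  have h4 := HasFDerivAt.congr_of_eventuallyEq h3 h5
  refine ⟨h4.differentiableAt.hasFDerivAt, ?_⟩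
  rw [h4.fderiv]
  simp [inner_sub_left]
  field_simp
  ring

theorem circles {R : E → ℝ} (hR : ContDiff ℝ ∞ R)
    (hreg : ∀ x, ‖x‖ = 1 → R x = 0 → ∃ v, ⟪x, v⟫ = 0 ∧ fderiv ℝ R x v ≠ 0)
    (hconn : IsConnected {x : sphere (0:E) 1 | R x ≤ 0})
    (hball : ¬IsBallS n {x : sphere (0:E) 1 | R x ≤ 0})
    {p q : E} (hp1 : ‖p‖ = 1) (hq1 : ‖q‖ = 1) (hq : 0 < R q) (hpq : p ≠ q) (hp : R p ≠ 0) :
    ∃ x : E, ‖x‖ = 1 ∧ R x = 0 ∧ ∃ c : ℝ, 0 < c ∧
      (∀ v, ⟪x, v⟫ = 0 → fderiv ℝ R x v =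
        c * (⟪p - x, v⟫ / ‖p - x‖ ^ 2 - ⟪q - x, v⟫ / ‖q - x‖ ^ 2)) ∧
      (R p < 0 →
        (¬∀ᶠ z in 𝓝 x, ‖z‖ = 1 → R z ≤ 0 → z ≠ x → Qt p q x < Qt p q z) ∧
        ∃ v, v ≠ 0 ∧ ⟪x, v⟫ = 0 ∧ fderiv ℝ R x v = 0 ∧
          ∀ γ : ℝ → E, ContDiffAt ℝ 2 γ 0 → γ 0 = x → deriv γ 0 = v →
            (∀ᶠ t in 𝓝 0, ‖γ t‖ = 1 ∧ R (γ t) = 0) →
            deriv (deriv fun t => Qt p q (γ t)) 0 ≤ 0) := by
  set q' : sphere (0:E) 1 := ⟨q, by simp [hq1]⟩ with hq'
  have hqc : (q' : E) = q := rfl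
  obtain ⟨hc, hd, hrg, hcp, hcn, hbl⟩ := transfer hR hreg hconn hball q' hq
  set ρ : Eu n → ℝ := R ∘ sg n q' with hρ
  set p' : Eu n := pr n q' p with hp'
  have hsp : sg n q' p' = p := sg_pr q' hp1 hpq
  have hK : 0 < ‖p'‖ ^ 2 + 4 := by positivity
  have hQ : ∀ y : Eu n, Qt p q (sg n q' y) = ‖y - p'‖ ^ 2 / (‖p'‖ ^ 2 + 4) := by
    intro y
    have := Qt_sg q' y p'
    rw [hsp] at this
    exact this
  -- first order computation
  have hfirst : ∀ (y : Eu n) (s : ℝ), ρ y = 0 → 0 ≤ s → y + s • ∇ ρ y = p' →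
      0 < s ∧ ∃ c : ℝ, 0 < c ∧ ∀ v, ⟪sg n q' y, v⟫ = 0 → fderiv ℝ R (sg n q' y) v =
        c * (⟪p - sg n q' y, v⟫ / ‖p - sg n q' y‖ ^ 2 -
          ⟪q - sg n q' y, v⟫ / ‖q - sg n q' y‖ ^ 2) := by
    intro y s hy hs h
    set x := sg n q' y with hx
    have hxp : x ≠ p := by
      intro hxp
      apply hp
      rw [← hxp]; exact hy
    have hxq : x ≠ q := sg_ne q' y
    have hs' : 0 < s := by
      rcases hs.eq_or_lt with h0 | h0
      · exfalso
        rw [← h0, zero_smul, add_zero] at h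
        apply hxp
        rw [hx, h, hsp]
      · exact h0
    have hnp : 0 < ‖x - p‖ ^ 2 := by
      have := norm_pos_iff.2 (sub_ne_zero.2 hxp)
      positivity
    have hnq : 0 < ‖x - q‖ ^ 2 := by
      have := norm_pos_iff.2 (sub_ne_zero.2 hxq)
      positivity
    refine ⟨hs', (‖p'‖ ^ 2 + 4) * (‖x - p‖ ^ 2 / ‖x - q‖ ^ 2) / s, by positivity, ?_⟩
    intro v hv
    have h1 := dsg_surj (n := n) q' (norm_sg q' y) (sg_ne (n := n) q' y) hv
    rw [pr_sg] at h1
    set w := fderiv ℝ (pr n q') (sg n q' y) v with hw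
    -- derivative of R
    have h2 : fderiv ℝ R x v = ⟪∇ ρ y, w⟫ := by
      rw [← h1, ← hd]
      have h2 : HasGradientAt ρ (∇ ρ y) y := (hc.differentiable (by simp) y).hasGradientAt
      rw [h2.hasFDerivAt.fderiv]
      simp
    have h3 : s * ⟪∇ ρ y, w⟫ = ⟪p' - y, w⟫ := by
      have h4 : s • ∇ ρ y = p' - y := by rw [← h]; abel
      rw [← h4, inner_smul_left]
      simp
    -- derivative of the quotient
    have h5 : 2 * ⟪y - p', w⟫ / (‖p'‖ ^ 2 + 4) = fderiv ℝ (Qt p q) x v := by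
      obtain ⟨h6, -⟩ := Qt_deriv (p := p) hxq v
      have h7 : HasFDerivAt (sg n q') (fderiv ℝ (sg n q') y) y :=
        ((sg_smooth q').differentiable (by simp) y).hasFDerivAt
      have h8 := h6.comp y h7
      have h9 : Qt p q ∘ sg n q' = fun y => ‖y - p'‖ ^ 2 / (‖p'‖ ^ 2 + 4) := by
        funext y; exact hQ y
      rw [h9] at h8
      have h10 := ((hasFDerivAt_id (𝕜 := ℝ) y).sub_const p').norm_sq.mul_const
        ((‖p'‖ ^ 2 + 4)⁻¹)
      have h11 : (fun y : Eu n => ‖y - p'‖ ^ 2 / (‖p'‖ ^ 2 + 4)) =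
          fun y => ‖id y - p'‖ ^ 2 * (‖p'‖ ^ 2 + 4)⁻¹ := by
        funext y; rw [div_eq_mul_inv]; rfl
      rw [h11] at h8
      have h12 := DFunLike.congr_fun (h8.unique h10) w
      rw [ContinuousLinearMap.comp_apply, h1] at h12
      rw [h12]
      simp [inner_sub_left]
      ring
    have h13 := (Qt_deriv (p := p) hxq v).2
    rw [h13] at h5
    have h14 : ⟪y - p', w⟫ = -(s * ⟪∇ ρ y, w⟫) := by
      rw [h3, ← inner_neg_left]; congr 1; abel
    rw [h14] at h5
    have h15 : ⟪p - x, v⟫ = -⟪x - p, v⟫ := by rw [← inner_neg_left]; congr 1; abel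
    have h16 : ⟪q - x, v⟫ = -⟪x - q, v⟫ := by rw [← inner_neg_left]; congr 1; abel
    rw [h2, h15, h16, norm_sub_rev p x, norm_sub_rev q x]
    rw [div_eq_div_iff hK.ne' (by positivity)] at h5
    exact alg hs' hnp hnq h5
  rcases lt_or_gt_of_ne hp with hneg | hpos
  · have hp'' : ρ p' < 0 := by
      show R (sg n q' p') < 0
      rw [hsp]; exact hneg
    obtain ⟨y, hy, s, hs, h, hmin, w, hw, hw1, hw2⟩ := eu_curved hc hrg hcp hcn hbl hp''
    obtain ⟨-, c, hc0, hcc⟩ := hfirst y s hy hs.le h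
    refine ⟨sg n q' y, norm_sg q' y, hy, c, hc0, hcc, fun _ => ⟨?_, ?_⟩⟩
    · intro hev
      apply hmin
      have h1 : Tendsto (sg n q') (𝓝 y) (𝓝 (sg n q' y)) := (sg_smooth q').continuous.continuousAt
      filter_upwards [h1.eventually hev] with z hz hz1 hz2
      have h2 := hz (norm_sg q' z) hz1 (fun h3 => hz2 (by rw [← pr_sg q' z, h3, pr_sg]))
      rw [hQ, hQ, div_lt_div_iff_of_pos_right hK] at h2
      exact lt_of_pow_lt_pow_left₀ 2 (norm_nonneg _) h2
    · refine ⟨fderiv ℝ (sg n q') y w, ?_, inner_dsg q' y w, ?_, ?_⟩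
      · intro h0
        have := dpr_dsg q' y w
        rw [h0, map_zero] at this
        exact hw this.symm
      · rw [← hd]
        have h2 : HasGradientAt ρ (∇ ρ y) y := (hc.differentiable (by simp) y).hasGradientAt
        rw [h2.hasFDerivAt.fderiv]
        simpa using hw1
      · intro γ hγ h0 h1 hM
        have hx := norm_sg q' y
        have hxq : sg n q' y ≠ q := sg_ne q' y
        have hp2 : ContDiffAt ℝ 2 (pr n q') (γ 0) := by
          rw [h0]
          exact (pr_smooth q' hx hxq).of_le two_le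
        have hg : ContDiffAt ℝ 2 (fun t => pr n q' (γ t)) 0 := hp2.comp 0 hγ
        have hg0 : pr n q' (γ 0) = y := by rw [h0, pr_sg]
        have hg1 : deriv (fun t => pr n q' (γ t)) 0 = w := by
          have h2 : HasDerivAt γ (fderiv ℝ (sg n q') y w) 0 := by
            rw [← h1]; exact (hγ.differentiableAt (by simp)).hasDerivAt
          have h3 : HasFDerivAt (pr n q') (fderiv ℝ (pr n q') (γ 0)) (γ 0) :=
            (hp2.differentiableAt (by simp)).hasFDerivAt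
          have h4 := h3.comp_hasDerivAt 0 h2
          rw [h0, dpr_dsg] at h4
          exact h4.deriv
        have hcont : Tendsto γ (𝓝 0) (𝓝 (sg n q' y)) := by
          rw [← h0]; exact hγ.continuousAt
        have hne : ∀ᶠ t in 𝓝 (0:ℝ), γ t ≠ q := hcont.eventually_ne hxq
        have hback : ∀ᶠ t in 𝓝 (0:ℝ), sg n q' (pr n q' (γ t)) = γ t := by
          filter_upwards [hM, hne] with t ht ht2
          exact sg_pr q' ht.1 ht2
        have hzero : ∀ᶠ t in 𝓝 (0:ℝ), ρ (pr n q' (γ t)) = 0 := by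
          filter_upwards [hM, hback] with t ht ht2
          show R (sg n q' (pr n q' (γ t))) = 0
          rw [ht2]; exact ht.2
        have h5 := curve_second hc h hw2 hg hg0 hg1 hzero
        have h6 : (fun t => Qt p q (γ t)) =ᶠ[𝓝 0]
            fun t => ‖pr n q' (γ t) - p'‖ ^ 2 * (‖p'‖ ^ 2 + 4)⁻¹ := by
          filter_upwards [hback] with t ht
          rw [← ht, hQ, ht, div_eq_mul_inv]
        have h7 : deriv (fun t => Qt p q (γ t)) =ᶠ[𝓝 0]
            fun t => deriv (fun t => ‖pr n q' (γ t) - p'‖ ^ 2) t * (‖p'‖ ^ 2 + 4)⁻¹ := by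
          have h8 : ∀ᶠ t in 𝓝 (0:ℝ), DifferentiableAt ℝ (fun t => ‖pr n q' (γ t) - p'‖ ^ 2) t := by
            have h9 : ∀ᶠ t in 𝓝 (0:ℝ), ContDiffAt ℝ 2 (fun t => pr n q' (γ t)) t :=
              hg.eventually (by simp)
            filter_upwards [h9] with t ht
            exact ((ht.differentiableAt (by simp)).sub_const p').norm_sq ℝ
          filter_upwards [h6.eventuallyEq_nhds, h8] with t ht ht2
          rw [ht.deriv_eq, deriv_mul_const ht2]
        rw [h7.deriv_eq]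
        have h10 : deriv (fun t => deriv (fun t => ‖pr n q' (γ t) - p'‖ ^ 2) t *
            (‖p'‖ ^ 2 + 4)⁻¹) 0 =
            deriv (deriv (fun t => ‖pr n q' (γ t) - p'‖ ^ 2)) 0 * (‖p'‖ ^ 2 + 4)⁻¹ := by
          rw [deriv_mul_const_field]
        rw [h10]
        exact mul_nonpos_of_nonpos_of_nonneg h5 (by positivity)
  · obtain ⟨y, hy, s, hs, h⟩ := eu_rays hc hrg hcp hcn hbl p'
    obtain ⟨-, c, hc0, hcc⟩ := hfirst y s hy hs h
    exact ⟨sg n q' y, norm_sg q' y, hy, c, hc0, hcc, fun h => absurd h (not_lt.2 hpos.le)⟩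

end Pool.Agent.Q100.SS
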