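import Pool.Agent.Q196.XB.Star

/-! Compactly supported scalings, and extension of diffeomorphisms by the identity. -/

set_option autoImplicit false
set_option linter.unusedSectionVars false

open scoped Topology ContDiff Manifold NNReal
open Set Metric Filter

noncomputable section

namespace Pool.Agent.Q100.SS

open Pool.Agent.Q196.XB

section scale

variable (E : Type) [NormedAddCommGroup E] [InnerProductSpace ℝ E] [FiniteDimensional ℝ E]

/-- there is a compactly supported diffeomorphism which is the scaling by `s` near zero -/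
def Sc (s : ℝ) : Prop := ∃ H : E → E, Function.Bijective H ∧
  IsLocalDiffeomorph 𝓘(ℝ, E) 𝓘(ℝ, E) ∞ H ∧ (∀ x, 2 ≤ ‖x‖ → H x = x) ∧
  ∀ x, ‖x‖ * s < 1 → H x = s • x

variable {E}

lemma Sc_mul {s t : ℝ} (hs1 : 1 ≤ s) (ht1 : 1 ≤ t) (hs : Sc E s) (ht : Sc E t) :
    Sc E (t * s) := by
  obtain ⟨H, h1, h2, h3, h4⟩ := hs
  obtain ⟨K, k1, k2, k3, k4⟩ := ht
  refine ⟨K ∘ H, k1.comp h1, fun x => ?_, fun x hx => ?_, fun x hx => ?_⟩
  · exact IsLocalDiffeomorphAt.comp _ _ (h2 x) (k2 (H x))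
  · show K (H x) = x
    rw [h3 x hx, k3 x hx]
  · show K (H x) = (t * s) • x
    have hx1 : ‖x‖ * s < 1 := by
      have : ‖x‖ * s ≤ ‖x‖ * (t * s) := by
        have h0 : 0 ≤ ‖x‖ * s := by positivity
        nlinarith
      linarith
    rw [h4 x hx1, k4, smul_smul]
    rw [norm_smul, Real.norm_eq_abs, abs_of_pos (by linarith)]
    calc s * ‖x‖ * t = ‖x‖ * (t * s) := by ring
      _ < 1 := hx

lemma Sc_small : ∃ η : ℝ, 0 < η ∧ ∀ s, 1 ≤ s → s ≤ 1 + η → Sc E s := by
  let f : ContDiffBump (0 : E) := ⟨1, 2, one_pos, one_lt_two⟩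
  have hf : ContDiff ℝ ∞ f := f.contDiff
  have hk : ContDiff ℝ ∞ (fun x : E => f x • x) := hf.smul contDiff_id
  have hsup : HasCompactSupport (fun x : E => f x • x) :=
    HasCompactSupport.smul_right (f' := fun x : E => x) f.hasCompactSupport
  obtain ⟨C, hC⟩ := ContDiff.lipschitzWith_of_hasCompactSupport hsup hk (by simp)
  set η : ℝ := 1 / (2 * (C + 1)) with hη
  have hηpos : 0 < η := by positivity
  refine ⟨η, hηpos, fun s hs1 hs2 => ?_⟩
  set r := s - 1 with hr
  have hr0 : 0 ≤ r := by linarith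
  have hr1 : r * C ≤ 1 / 2 := by
    have h1 : r ≤ η := by linarith
    have h2 : r * C ≤ η * C := by gcongr
    have h3 : η * C ≤ 1 / 2 := by
      rw [hη, div_mul_eq_mul_div, div_le_div_iff₀ (by positivity) (by norm_num)]
      nlinarith [C.2]
    linarith
  set h : E → E := fun x => x + r • (f x • x) with hh
  have hhs : ContDiff ℝ ∞ h := contDiff_id.add (contDiff_const.smul hk)
  have happ : ApproximatesLinearOn h ((ContinuousLinearEquiv.refl ℝ E : E ≃L[ℝ] E) : E →L[ℝ] E)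
      univ (1 / 2 : ℝ≥0) := by
    intro x _ y _
    have h1 : h x - h y - ((ContinuousLinearEquiv.refl ℝ E : E ≃L[ℝ] E) : E →L[ℝ] E) (x - y) =
        r • (f x • x - f y • y) := by
      simp only [hh, ContinuousLinearEquiv.coe_coe, ContinuousLinearEquiv.coe_refl', id_eq,
        smul_sub]
      abel
    rw [h1, norm_smul, Real.norm_eq_abs, abs_of_nonneg hr0]
    have h2 := hC.norm_sub_le x y
    calc r * ‖f x • x - f y • y‖ ≤ r * (C * ‖x - y‖) := by gcongr
      _ = (r * C) * ‖x - y‖ := by ring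
      _ ≤ (1 / 2) * ‖x - y‖ := by gcongr
      _ = _ := by simp
  have hcond : Subsingleton E ∨ (1 / 2 : ℝ≥0) <
      ‖((ContinuousLinearEquiv.refl ℝ E : E ≃L[ℝ] E).symm : E →L[ℝ] E)‖₊⁻¹ := by
    rcases subsingleton_or_nontrivial E with h1 | h1
    · exact Or.inl h1
    · right
      have : ‖((ContinuousLinearEquiv.refl ℝ E : E ≃L[ℝ] E).symm : E →L[ℝ] E)‖₊ = 1 := by
        have h2 : ((ContinuousLinearEquiv.refl ℝ E : E ≃L[ℝ] E).symm : E →L[ℝ] E) =
          ContinuousLinearMap.id ℝ E := rfl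
        rw [h2]
        exact NNReal.eq ContinuousLinearMap.norm_id
      rw [this, inv_one]
      exact NNReal.half_lt_self one_ne_zero
  haveI : CompleteSpace E := FiniteDimensional.complete ℝ E
  have hbij : Function.Bijective h := (happ.toHomeomorph h hcond).bijective
  refine ⟨h, hbij, fun x => ?_, fun x hx => ?_, fun x hx => ?_⟩
  · refine locdiff_of_injective hhs fun v hv => ?_
    have hkd : DifferentiableAt ℝ (fun x : E => f x • x) x := hk.differentiable (by simp) x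
    have h1 : HasFDerivAt h (ContinuousLinearMap.id ℝ E + r • fderiv ℝ (fun x : E => f x • x) x)
        x := (hasFDerivAt_id x).add (hkd.hasFDerivAt.const_smul r)
    rw [h1.fderiv] at hv
    have h2 : v = -(r • fderiv ℝ (fun x : E => f x • x) x v) := by
      have : v + r • fderiv ℝ (fun x : E => f x • x) x v = 0 := hv
      exact eq_neg_of_add_eq_zero_left this
    have h3 : ‖fderiv ℝ (fun x : E => f x • x) x‖ ≤ C := norm_fderiv_le_of_lipschitz ℝ hC
    have h4 : ‖v‖ ≤ (1 / 2) * ‖v‖ := by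
      calc ‖v‖ = ‖r • fderiv ℝ (fun x : E => f x • x) x v‖ := by
            conv_lhs => rw [h2]
            rw [norm_neg]
        _ = r * ‖fderiv ℝ (fun x : E => f x • x) x v‖ := by
            rw [norm_smul, Real.norm_eq_abs, abs_of_nonneg hr0]
        _ ≤ r * (C * ‖v‖) := by
            gcongr
            exact (ContinuousLinearMap.le_opNorm _ _).trans (by gcongr)
        _ = (r * C) * ‖v‖ := by ring
        _ ≤ (1 / 2) * ‖v‖ := by gcongr
    have h5 : ‖v‖ ≤ 0 := by linarith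
    exact norm_le_zero_iff.1 h5
  · have : f x = 0 := f.zero_of_le_dist (by simpa using hx)
    simp [hh, this]
  · have hx1 : ‖x‖ ≤ 1 := by nlinarith [norm_nonneg x]
    have : f x = 1 := f.one_of_mem_closedBall (by simpa using hx1)
    simp only [hh, this, one_smul, hr]
    rw [sub_smul, one_smul]
    abel

lemma Sc_all {s : ℝ} (hs : 1 ≤ s) : Sc E s := by
  obtain ⟨η, hη, h⟩ := Sc_small (E := E)
  have key : ∀ k : ℕ, ∀ s : ℝ, 1 ≤ s → s ≤ (1 + η) ^ k → Sc E s := by
    intro k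
    induction k with
    | zero =>
      intro s h1 h2
      exact h s h1 (by simp at h2; linarith)
    | succ k ih =>
      intro s h1 h2
      by_cases h3 : s ≤ 1 + η
      · exact h s h1 h3
      · push Not at h3
        have h4 : s = (1 + η) * (s / (1 + η)) := by field_simp
        rw [h4]
        have h5 : 1 ≤ s / (1 + η) := by rw [le_div_iff₀ (by linarith)]; linarith
        refine Sc_mul h5 (by linarith) (ih _ h5 ?_) (h _ (by linarith) le_rfl)
        rw [div_le_iff₀ (by linarith)]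
        rw [pow_succ] at h2
        exact h2
  obtain ⟨k, hk⟩ := pow_unbounded_of_one_lt s (show 1 < 1 + η by linarith)
  exact key k s hs hk.le

theorem exists_scale {δ : ℝ} (h0 : 0 < δ) (h1 : δ < 1) : ∃ H : E → E, Function.Bijective H ∧
    IsLocalDiffeomorph 𝓘(ℝ, E) 𝓘(ℝ, E) ∞ H ∧ (∀ x, 2 ≤ ‖x‖ → H x = x) ∧
    H '' ball 0 δ = ball 0 1 := by
  obtain ⟨H, k1, k2, k3, k4⟩ := Sc_all (E := E) (s := δ⁻¹) ((one_le_inv₀ h0).2 h1.le)
  refine ⟨H, k1, k2, k3, ?_⟩
  ext x
  simp only [mem_image, mem_ball_zero_iff]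
  constructor
  · rintro ⟨y, hy, rfl⟩
    rw [k4 y (by rw [← div_eq_mul_inv, div_lt_one h0]; exact hy), norm_smul, norm_inv,
      Real.norm_eq_abs, abs_of_pos h0, inv_mul_lt_iff₀ h0]
    linarith
  · intro hx
    have h2 : ‖δ • x‖ < δ := by
      rw [norm_smul, Real.norm_eq_abs, abs_of_pos h0]
      nlinarith
    refine ⟨δ • x, h2, ?_⟩
    rw [k4 _ (by rw [← div_eq_mul_inv, div_lt_one h0]; exact h2), smul_smul,
      inv_mul_cancel₀ h0.ne', one_smul]

end scale

section extend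

variable {E : Type} [NormedAddCommGroup E] [InnerProductSpace ℝ E] [FiniteDimensional ℝ E]
  {N : Type} [TopologicalSpace N] [T2Space N] [ChartedSpace E N]

lemma id_ldN (x : N) : IsLocalDiffeomorphAt 𝓘(ℝ, E) 𝓘(ℝ, E) ∞ (id : N → N) x :=
  (Diffeomorph.refl 𝓘(ℝ, E) N ∞).isLocalDiffeomorph x

lemma congr_ld {A B : Type} [TopologicalSpace A] [TopologicalSpace B] [ChartedSpace E A]
    [ChartedSpace E B] {f g : A → B} {x : A} (hf : IsLocalDiffeomorphAt 𝓘(ℝ, E) 𝓘(ℝ, E) ∞ f x)
    {V : Set A} (hV : IsOpen V) (hx : x ∈ V) (h : ∀ y ∈ V, g y = f y) :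
    IsLocalDiffeomorphAt 𝓘(ℝ, E) 𝓘(ℝ, E) ∞ g x := by
  obtain ⟨Φ, hx1, heq⟩ := hf
  let e : OpenPartialHomeomorph A B :=
    { toPartialEquiv := Φ.toPartialEquiv
      open_source := Φ.open_source
      open_target := Φ.open_target
      continuousOn_toFun := Φ.contMDiffOn_toFun.continuousOn
      continuousOn_invFun := Φ.contMDiffOn_invFun.continuousOn }
  let e' := e.restrOpen V hV
  refine ⟨⟨e'.toPartialEquiv, e'.open_source, e'.open_target, ?_, ?_⟩, ?_, ?_⟩
  · exact Φ.contMDiffOn_toFun.mono (by intro y hy; exact hy.1)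
  · refine Φ.contMDiffOn_invFun.mono ?_
    intro y hy
    exact hy.1
  · exact ⟨hx1, hx⟩
  · intro y hy
    have h1 : y ∈ Φ.source ∧ y ∈ V := hy
    rw [h y h1.2]
    exact heq h1.1

theorem extend {Φ : E → N} (hΦ : Topology.IsOpenEmbedding Φ)
    (hΦd : IsLocalDiffeomorph 𝓘(ℝ, E) 𝓘(ℝ, E) ∞ Φ) {H : E → E} (hb : Function.Bijective H)
    (hd : IsLocalDiffeomorph 𝓘(ℝ, E) 𝓘(ℝ, E) ∞ H) (hc : ∀ x, 2 ≤ ‖x‖ → H x = x) :
    ∃ G : N → N, Function.Bijective G ∧ IsLocalDiffeomorph 𝓘(ℝ, E) 𝓘(ℝ, E) ∞ G ∧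
      ∀ w, G (Φ w) = Φ (H w) := by
  classical
  set G : N → N := fun x => if h : ∃ w, Φ w = x then Φ (H h.choose) else x with hG
  have hGΦ : ∀ w, G (Φ w) = Φ (H w) := by
    intro w
    have h : ∃ w', Φ w' = Φ w := ⟨w, rfl⟩
    have h1 : h.choose = w := hΦ.injective h.choose_spec
    simp only [hG, dif_pos h, h1]
  have hGid : ∀ x, (¬∃ w, Φ w = x) → G x = x := fun x h => by simp only [hG, dif_neg h]
  refine ⟨G, ⟨?_, ?_⟩, ?_, hGΦ⟩
  · intro x y hxy
    by_cases hx : ∃ w, Φ w = x <;> by_cases hy : ∃ w, Φ w = y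
    · obtain ⟨w, rfl⟩ := hx
      obtain ⟨w', rfl⟩ := hy
      rw [hGΦ, hGΦ] at hxy
      rw [hb.1 (hΦ.injective hxy)]
    · obtain ⟨w, rfl⟩ := hx
      rw [hGΦ, hGid y hy] at hxy
      exact absurd ⟨_, hxy⟩ hy
    · obtain ⟨w, rfl⟩ := hy
      rw [hGΦ, hGid x hx] at hxy
      exact absurd ⟨_, hxy.symm⟩ hx
    · rwa [hGid x hx, hGid y hy] at hxy
  · intro y
    by_cases hy : ∃ w, Φ w = y
    · obtain ⟨w, rfl⟩ := hy
      obtain ⟨w', rfl⟩ := hb.2 w
      exact ⟨Φ w', hGΦ w'⟩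
    · exact ⟨y, hGid y hy⟩
  · intro x
    by_cases hx : ∃ w, Φ w = x
    · obtain ⟨w, rfl⟩ := hx
      set L := (hΦd w).localInverse with hL
      have h1 : IsLocalDiffeomorphAt 𝓘(ℝ, E) 𝓘(ℝ, E) ∞ (Φ ∘ (H ∘ L)) (Φ w) := by
        have h2 := (hΦd w).localInverse_isLocalDiffeomorphAt
        exact IsLocalDiffeomorphAt.comp _ _ (IsLocalDiffeomorphAt.comp _ _ h2 (hd _)) (hΦd _)
      refine congr_ld h1 (hΦd w).localInverse_open_source (hΦd w).localInverse_mem_source ?_
      intro y hy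
      have h3 : Φ (L y) = y := (hΦd w).localInverse_right_inv hy
      show G y = Φ (H (L y))
      rw [← hGΦ, h3]
    · have hcl : IsClosed (Φ '' closedBall 0 2) :=
        ((isCompact_closedBall (0:E) 2).image hΦ.continuous).isClosed
      refine congr_ld (id_ldN x) hcl.isOpen_compl ?_ ?_
      · rintro ⟨w, -, hw⟩
        exact hx ⟨w, hw⟩
      · intro y hy
        by_cases hy' : ∃ w, Φ w = y
        · obtain ⟨w, rfl⟩ := hy'
          have h2 : 2 < ‖w‖ := by
            by_contra h3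
            exact hy ⟨w, by simpa using not_lt.1 h3, rfl⟩
          rw [hGΦ, hc w h2.le]
          rfl
        · rw [hGid y hy']
          rfl

end extend

end Pool.Agent.Q100.SS
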