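import Pool.Agent.Q100.SS.Main
import Pool.Agent.Q100.SS.Scale

/-! The complement of a small ball in the sphere is a ball. -/

set_option autoImplicit false
set_option linter.unusedSectionVars false

open scoped Topology ContDiff Manifold NNReal RealInnerProductSpace
open Set Metric Filter Module

noncomputable section

namespace Pool.Agent.Q100.SS

open Pool.Agent.Q196.XB

section loc

variable {V : Type} [NormedAddCommGroup V] [InnerProductSpace ℝ V] [FiniteDimensional ℝ V]

/-- local analysis of a local diffeomorphism fixing `0` -/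
theorem local_star {om : V → V} {O : Set V} (hO : IsOpen O) (h0O : (0:V) ∈ O)
    (hom : ContDiffOn ℝ ∞ om O) (h0 : om 0 = 0) (hinj : ∀ v, fderiv ℝ om 0 v = 0 → v = 0) :
    ∃ ε m : ℝ, 0 < ε ∧ 0 < m ∧ ball (0:V) ε ⊆ O ∧ (∀ y ∈ ball (0:V) ε, m * ‖y‖ ≤ ‖om y‖) ∧
      ∀ y ∈ ball (0:V) ε, y ≠ 0 → 0 < ⟪om y, fderiv ℝ om y y⟫ := by
  set L := fderiv ℝ om 0 with hL
  have hLinj : Function.Injective L := (injective_iff_map_eq_zero _).2 hinj
  obtain ⟨K, hK, hanti⟩ := (LinearMap.ker_eq_bot.2 hLinj : LinearMap.ker (L : V →ₗ[ℝ] V) = ⊥) |>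
    fun h => L.exists_antilipschitzWith h
  set m : ℝ := (K:ℝ)⁻¹ with hm
  have hK' : (0:ℝ) < K := by exact_mod_cast hK
  have hmpos : 0 < m := by positivity
  have hLm : ∀ v, m * ‖v‖ ≤ ‖L v‖ := by
    intro v
    have h1 := hanti.le_mul_dist v 0
    rw [dist_zero_right, map_zero, dist_zero_right] at h1
    rw [hm, inv_mul_le_iff₀ hK']
    exact h1
  have hdiff : ∀ y ∈ O, DifferentiableAt ℝ om y := fun y hy =>
    (hom.contDiffAt (hO.mem_nhds hy)).differentiableAt (by simp)
  have hcont : ContinuousAt (fderiv ℝ om) 0 := by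
    have h1 : ContDiffAt ℝ ∞ om 0 := hom.contDiffAt (hO.mem_nhds h0O)
    exact (h1.fderiv_right (m := ∞) (by simp)).continuousAt
  have hev : ∀ᶠ y in 𝓝 (0:V), ‖fderiv ℝ om y - L‖ < m / 4 := by
    have h1 : Tendsto (fun y => ‖fderiv ℝ om y - L‖) (𝓝 0) (𝓝 ‖fderiv ℝ om 0 - L‖) :=
      (hcont.sub continuousAt_const).norm
    rw [← hL, sub_self, norm_zero] at h1
    exact h1.eventually_lt_const (by positivity)
  obtain ⟨ε, hε, hball⟩ := Metric.mem_nhds_iff.1 (Filter.inter_mem hev (hO.mem_nhds h0O))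
  have hmv : ∀ y ∈ ball (0:V) ε, ‖om y - L y‖ ≤ m / 4 * ‖y‖ := by
    intro y hy
    have h1 := (convex_ball (0:V) ε).norm_image_sub_le_of_norm_hasFDerivWithin_le
      (f := fun z => om z - L z) (f' := fun z => fderiv ℝ om z - L) (C := m / 4)
      (fun z hz => (((hdiff z (hball hz).2).hasFDerivAt).sub L.hasFDerivAt).hasFDerivWithinAt)
      (fun z hz => le_of_lt (hball hz).1) (mem_ball_self hε) hy
    simpa [h0] using h1
  refine ⟨ε, 3 / 4 * m, hε, by positivity, fun y hy => (hball hy).2, ?_, ?_⟩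
  · intro y hy
    have h1 := hmv y hy
    have h2 := hLm y
    have h3 : ‖L y‖ ≤ ‖om y‖ + ‖om y - L y‖ := by
      have : L y = om y - (om y - L y) := by abel
      calc ‖L y‖ = ‖om y - (om y - L y)‖ := by rw [← this]
        _ ≤ _ := norm_sub_le _ _
    linarith
  · intro y hy hy0
    have h1 := hmv y hy
    have h2 := hLm y
    have hyn : 0 < ‖y‖ := norm_pos_iff.2 hy0
    set a := om y - L y with ha
    set b := fderiv ℝ om y y - L y with hb
    have hb1 : ‖b‖ ≤ m / 4 * ‖y‖ := by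
      have : b = (fderiv ℝ om y - L) y := rfl
      rw [this]
      exact (ContinuousLinearMap.le_opNorm _ _).trans (by gcongr; exact le_of_lt (hball hy).1)
    have e1 : om y = L y + a := by rw [ha]; abel
    have e2 : fderiv ℝ om y y = L y + b := by rw [hb]; abel
    rw [e1, e2, inner_add_left, inner_add_right, inner_add_right, real_inner_self_eq_norm_sq]
    set l := ‖L y‖ with hl
    have hlpos : 0 < l := lt_of_lt_of_le (by positivity) h2
    have ha' : ‖a‖ ≤ l / 4 := by linarith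
    have hb' : ‖b‖ ≤ l / 4 := by linarith
    have i1 : |⟪L y, b⟫| ≤ l * (l / 4) := (abs_real_inner_le_norm _ _).trans (by gcongr)
    have i2 : |⟪a, L y⟫| ≤ (l / 4) * l := (abs_real_inner_le_norm _ _).trans (by gcongr)
    have i3 : |⟪a, b⟫| ≤ (l / 4) * (l / 4) := (abs_real_inner_le_norm _ _).trans (by gcongr)
    have j1 := (abs_le.1 i1).1
    have j2 := (abs_le.1 i2).1
    have j3 := (abs_le.1 i3).1
    nlinarith

/-- inversion of a small domain gives a star-shaped domain -/
theorem inv_star {om : V → V} {ε m : ℝ} (hε : 0 < ε) (hm : 0 < m)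
    (hom : ContDiffOn ℝ ∞ om (ball 0 ε)) (h0 : om 0 = 0)
    (h1 : ∀ y ∈ ball (0:V) ε, m * ‖y‖ ≤ ‖om y‖)
    (h2 : ∀ y ∈ ball (0:V) ε, y ≠ 0 → 0 < ⟪om y, fderiv ℝ om y y⟫)
    {δ : ℝ} (hδ0 : 0 < δ) (hδ1 : δ < 1) (hδ2 : δ < m * (ε / 3)) :
    ∃ Θ : V ≃ₘ^∞⟮𝓘(ℝ, V), 𝓘(ℝ, V)⟯ V, ∀ z, z ∈ Θ '' closedBall 0 1 ↔
      (z ≠ 0 → ¬(‖(4 / ‖z‖ ^ 2) • z‖ < ε / 3 ∧ ‖om ((4 / ‖z‖ ^ 2) • z)‖ < δ)) := by
  classical
  let χ : ContDiffBump (0 : V) := ⟨ε / 3, 2 * ε / 3, by positivity, by linarith⟩
  set u : V → ℝ := fun y => χ y * ‖om y‖ ^ 2 + (1 - χ y) with hu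
  have hδδ : δ ^ 2 < 1 := by nlinarith
  have hu_small : ∀ y : V, ‖y‖ < ε / 3 → u y = ‖om y‖ ^ 2 := by
    intro y hy
    have : χ y = 1 := χ.one_of_mem_closedBall (by simpa using hy.le)
    simp [hu, this]
  have hu_large : ∀ y : V, 2 * ε / 3 ≤ ‖y‖ → u y = 1 := by
    intro y hy
    have : χ y = 0 := χ.zero_of_le_dist (by simpa using hy)
    simp [hu, this]
  have hu_gt : ∀ y : V, ε / 3 ≤ ‖y‖ → δ ^ 2 < u y := by
    intro y hy
    by_cases h3 : ‖y‖ < ε
    · have h4 := h1 y (by simpa using h3)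
      have h5 : δ < ‖om y‖ := by
        have : m * (ε / 3) ≤ m * ‖y‖ := by gcongr
        linarith
      have h6 : δ ^ 2 < ‖om y‖ ^ 2 := by gcongr
      have h7 : 0 ≤ χ y := χ.nonneg
      have h8 : χ y ≤ 1 := χ.le_one
      simp only [hu]
      rcases h7.eq_or_lt with h9 | h9
      · rw [← h9]; linarith
      · nlinarith
    · rw [hu_large y (by linarith [not_lt.1 h3])]
      exact hδδ
  have hus : ContDiff ℝ ∞ u := by
    rw [contDiff_iff_contDiffAt]
    intro y
    by_cases h3 : ‖y‖ < ε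
    · have h4 : ContDiffAt ℝ ∞ om y :=
        hom.contDiffAt (isOpen_ball.mem_nhds (by simpa using h3))
      have h5 : ContDiffAt ℝ ∞ χ y := χ.contDiffAt
      exact (h5.mul (h4.norm_sq ℝ)).add (contDiffAt_const.sub h5)
    · have h4 : u =ᶠ[𝓝 y] fun _ => 1 := by
        have h5 : ∀ᶠ z in 𝓝 y, 2 * ε / 3 < ‖z‖ :=
          continuous_norm.continuousAt.eventually_const_lt (by linarith [not_lt.1 h3])
        filter_upwards [h5] with z hz
        exact hu_large z hz.le
      exact contDiffAt_const.congr_of_eventuallyEq h4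
  set iv : V → V := fun z => (4 / ‖z‖ ^ 2) • z with hiv
  have hivn : ∀ z : V, z ≠ 0 → ‖iv z‖ = 4 / ‖z‖ := by
    intro z hz
    have h3 : 0 < ‖z‖ := norm_pos_iff.2 hz
    simp only [hiv, norm_smul, Real.norm_eq_abs, abs_of_pos (show 0 < 4 / ‖z‖ ^ 2 by positivity)]
    field_simp
  have hivs : ∀ z : V, z ≠ 0 → ContDiffAt ℝ ∞ iv z := by
    intro z hz
    have h3 : ‖z‖ ^ 2 ≠ 0 := by
      have := norm_pos_iff.2 hz
      positivity
    exact (contDiffAt_const.div (contDiff_norm_sq ℝ).contDiffAt h3).smul contDiffAt_id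
  set g : V → ℝ := fun z => δ ^ 2 - (if z = 0 then 1 else u (iv z)) with hg
  have hg0 : g 0 = δ ^ 2 - 1 := by simp [hg]
  have hgz : ∀ z, z ≠ 0 → g z = δ ^ 2 - u (iv z) := fun z hz => by simp [hg, hz]
  have hgs : ContDiff ℝ ∞ g := by
    rw [contDiff_iff_contDiffAt]
    intro z
    by_cases hz : z = 0
    · subst hz
      have h4 : g =ᶠ[𝓝 0] fun _ => δ ^ 2 - 1 := by
        filter_upwards [Metric.ball_mem_nhds (0:V) (show 0 < 4 / ε by positivity)] with z hz
        by_cases hz0 : z = 0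
        · rw [hz0, hg0]
        · rw [hgz z hz0, hu_large]
          rw [hivn z hz0]
          have h5 : 0 < ‖z‖ := norm_pos_iff.2 hz0
          have h6 : ‖z‖ < 4 / ε := by simpa using hz
          rw [lt_div_iff₀ hε] at h6
          rw [le_div_iff₀ h5]
          nlinarith
      exact contDiffAt_const.congr_of_eventuallyEq h4
    · have h4 : g =ᶠ[𝓝 z] fun z => δ ^ 2 - u (iv z) := by
        filter_upwards [isOpen_ne.mem_nhds hz] with w hw
        exact hgz w hw
      exact (contDiffAt_const.sub (hus.contDiffAt.comp z (hivs z hz))).congr_of_eventuallyEq h4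
  have hcomp : IsCompact {z | g z ≤ 0} := by
    have hc0 : ContinuousAt om 0 :=
      (hom.contDiffAt (isOpen_ball.mem_nhds (mem_ball_self hε))).continuousAt
    have h3 : ∀ᶠ y in 𝓝 (0:V), ‖om y‖ < δ := by
      have h4 : Tendsto (fun y => ‖om y‖) (𝓝 0) (𝓝 ‖om 0‖) := hc0.norm
      rw [h0, norm_zero] at h4
      exact h4.eventually_lt_const hδ0
    obtain ⟨r, hr, hrb⟩ := Metric.mem_nhds_iff.1
      (Filter.inter_mem h3 (Metric.ball_mem_nhds (0:V) (show 0 < ε / 3 by positivity)))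
    refine Metric.isCompact_of_isClosed_isBounded (isClosed_le hgs.continuous continuous_const) ?_
    refine (Metric.isBounded_closedBall (x := (0:V)) (r := 4 / r)).subset ?_
    intro z hz
    have hz' : g z ≤ 0 := hz
    rw [mem_closedBall_zero_iff]
    by_cases hz0 : z = 0
    · rw [hz0, norm_zero]; positivity
    · have h5 : 0 < ‖z‖ := norm_pos_iff.2 hz0
      by_contra h6
      push Not at h6
      have h7 : ‖iv z‖ < r := by
        rw [hivn z hz0, div_lt_iff₀ h5]
        rw [div_lt_iff₀ hr] at h6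
        linarith
      obtain ⟨h8, h9⟩ := hrb (show iv z ∈ ball (0:V) r by simpa using h7)
      have h8' : ‖om (iv z)‖ < δ := h8
      have h9' : ‖iv z‖ < ε / 3 := by simpa using h9
      rw [hgz z hz0, hu_small _ h9'] at hz'
      have h10 : ‖om (iv z)‖ ^ 2 < δ ^ 2 := by gcongr
      linarith
  have hzero : ∀ z, g z = 0 → 0 < fderiv ℝ g z z := by
    intro z hz
    have hz0 : z ≠ 0 := by
      rintro rfl
      rw [hg0] at hz
      linarith
    rw [hgz z hz0] at hz
    have h3 : ‖iv z‖ < ε / 3 := by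
      by_contra h4
      have := hu_gt (iv z) (not_lt.1 h4)
      linarith
    set y := iv z with hy
    have hy0 : y ≠ 0 := by
      intro h
      have h4 := hivn z hz0
      rw [← hy, h, norm_zero] at h4
      have h5 : 0 < ‖z‖ := norm_pos_iff.2 hz0
      have : 0 < 4 / ‖z‖ := by positivity
      linarith
    have hyb : y ∈ ball (0:V) ε := by
      rw [mem_ball_zero_iff]; linarith
    -- derivative of u
    have h4 : fderiv ℝ u y y = 2 * ⟪om y, fderiv ℝ om y y⟫ := by
      have h5 : u =ᶠ[𝓝 y] fun y => ‖om y‖ ^ 2 := by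
        filter_upwards [isOpen_ball.mem_nhds (show y ∈ ball (0:V) (ε / 3) by simpa using h3)] with w hw
        exact hu_small w (by simpa using hw)
      have h6 : HasFDerivAt om (fderiv ℝ om y) y :=
        ((hom.contDiffAt (isOpen_ball.mem_nhds hyb)).differentiableAt (by simp)).hasFDerivAt
      rw [h5.fderiv_eq, h6.norm_sq.fderiv]
      simp
    have h5 : HasDerivAt (fun t : ℝ => g (Real.exp t • z)) (fderiv ℝ g z z) 0 := by
      have := ray_deriv hgs z 0
      simpa using this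
    have h6 : HasDerivAt (fun t : ℝ => δ ^ 2 - u (Real.exp (-t) • y)) (fderiv ℝ u y y) 0 := by
      have h7 : HasDerivAt (fun t : ℝ => Real.exp (-t) • y) (-y) 0 := by
        have h8 : HasDerivAt (fun t : ℝ => Real.exp (-t)) (-1) 0 := by
          have h := (hasDerivAt_neg (0:ℝ)).exp
          simpa using h
        have := h8.smul_const y
        simpa using this
      have h9 : HasFDerivAt u (fderiv ℝ u y) (Real.exp (-(0:ℝ)) • y) := by
        have : Real.exp (-(0:ℝ)) • y = y := by simp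
        rw [this]
        exact (hus.differentiable (by simp) y).hasFDerivAt
      have h10 := h9.comp_hasDerivAt 0 h7
      have h11 := h10.const_sub (δ ^ 2)
      refine h11.congr_deriv ?_
      simp
    have h7 : (fun t : ℝ => g (Real.exp t • z)) = fun t : ℝ => δ ^ 2 - u (Real.exp (-t) • y) := by
      funext t
      rw [hgz _ (smul_ne_zero (Real.exp_ne_zero t) hz0)]
      congr 2
      simp only [hy, hiv, norm_smul, Real.norm_eq_abs, abs_of_pos (Real.exp_pos t), smul_smul]
      congr 1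
      rw [Real.exp_neg]
      have h8 : ‖z‖ ≠ 0 := norm_ne_zero_iff.2 hz0
      have h9 : Real.exp t ≠ 0 := Real.exp_ne_zero t
      field_simp
    rw [h7] at h5
    rw [h5.unique h6, h4]
    have := h2 y hyb hy0
    linarith
  obtain ⟨Θ, hΘ⟩ := star_ball hgs hcomp (by rw [hg0]; linarith) hzero
  refine ⟨Θ, fun z => ?_⟩
  rw [hΘ]
  constructor
  · intro hz hz0 ⟨h3, h4⟩
    have hz' : g z ≤ 0 := hz
    rw [hgz z hz0, hu_small (iv z) h3] at hz'
    have h10 : ‖om (iv z)‖ ^ 2 < δ ^ 2 := by gcongr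
    linarith
  · intro h
    show g z ≤ 0
    by_cases hz0 : z = 0
    · rw [hz0, hg0]; linarith
    · rw [hgz z hz0]
      by_cases h3 : ‖iv z‖ < ε / 3
      · have h4 : δ ≤ ‖om (iv z)‖ := by
          by_contra h5
          exact h hz0 ⟨h3, not_le.1 h5⟩
        rw [hu_small _ h3]
        have : δ ^ 2 ≤ ‖om (iv z)‖ ^ 2 := by gcongr
        linarith
      · have := hu_gt (iv z) (not_lt.1 h3)
        linarith

end loc

end Pool.Agent.Q100.SS
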