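import Pool.Agent.Q100.SS.Eu

/-! Transfer to the sphere by stereographic projection. -/

set_option autoImplicit false
set_option linter.unusedSectionVars false

open scoped Topology ContDiff Manifold RealInnerProductSpace Gradient
open Set Metric Filter Module

noncomputable section

namespace Pool.Agent.Q100.SS

open Pool.Agent.Q196.XB

variable {n : ℕ} {E : Type} [NormedAddCommGroup E] [InnerProductSpace ℝ E]
  [Fact (finrank ℝ E = n + 1)]

/-- Euclidean space -/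
abbrev Eu (n : ℕ) := EuclideanSpace ℝ (Fin n)

/-- inverse stereographic projection from `q` -/
def sg (n : ℕ) [Fact (finrank ℝ E = n + 1)] (q : sphere (0:E) 1) (y : Eu n) : E :=
  ((stereographic' n q).symm y : E)

/-- the isometry between the orthogonal complement of `q` and Euclidean space -/
def U (n : ℕ) [Fact (finrank ℝ E = n + 1)] (q : sphere (0:E) 1) :
    (ℝ ∙ (q : E))ᗮ ≃ₗᵢ[ℝ] Eu n :=
  (OrthonormalBasis.fromOrthogonalSpanSingleton n (ne_zero_of_mem_unit_sphere q)).repr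

lemma sg_eq (q : sphere (0:E) 1) (y : Eu n) :
    sg n q y = (‖y‖ ^ 2 + 4)⁻¹ • ((4:ℝ) • ((U n q).symm y : E) + (‖y‖ ^ 2 - 4) • (q : E)) := by
  unfold sg
  rw [stereographic'_symm_apply]
  have : ‖((U n q).symm y : E)‖ = ‖y‖ := by
    rw [Submodule.norm_coe, LinearIsometryEquiv.norm_map]
  simp only [U] at this ⊢
  simp only [this, smul_add]

lemma inner_U (q : sphere (0:E) 1) (y : Eu n) : ⟪((U n q).symm y : E), (q : E)⟫ = 0 := by
  have := ((U n q).symm y).2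
  rw [Submodule.mem_orthogonal_singleton_iff_inner_left] at this
  exact this

lemma inner_UU (q : sphere (0:E) 1) (y y' : Eu n) :
    ⟪((U n q).symm y : E), ((U n q).symm y' : E)⟫ = ⟪y, y'⟫ := by
  rw [← Submodule.coe_inner, LinearIsometryEquiv.inner_map_map]

lemma norm_q (q : sphere (0:E) 1) : ‖(q : E)‖ = 1 := by simp

lemma norm_sg (q : sphere (0:E) 1) (y : Eu n) : ‖sg n q y‖ = 1 := by
  unfold sg; simp

lemma inner_sg_q (q : sphere (0:E) 1) (y : Eu n) :
    ⟪sg n q y, (q : E)⟫ = (‖y‖ ^ 2 - 4) / (‖y‖ ^ 2 + 4) := by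
  rw [sg_eq, inner_smul_left, inner_add_left, inner_smul_left, inner_smul_left, inner_U,
    real_inner_self_eq_norm_sq, norm_q]
  simp only [conj_trivial]
  ring

lemma inner_sg_sg (q : sphere (0:E) 1) (y y' : Eu n) :
    ⟪sg n q y, sg n q y'⟫ = (16 * ⟪y, y'⟫ + (‖y‖ ^ 2 - 4) * (‖y'‖ ^ 2 - 4)) /
      ((‖y‖ ^ 2 + 4) * (‖y'‖ ^ 2 + 4)) := by
  have h1 : ⟪(q : E), ((U n q).symm y' : E)⟫ = 0 := by rw [real_inner_comm]; exact inner_U q y'
  rw [sg_eq, sg_eq, inner_smul_left, inner_smul_right, inner_add_left, inner_add_right,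
    inner_add_right, inner_smul_left, inner_smul_left, inner_smul_left, inner_smul_left,
    inner_smul_right, inner_smul_right, inner_smul_right, inner_smul_right,
    inner_U, inner_UU, h1, real_inner_self_eq_norm_sq, norm_q]
  simp only [conj_trivial]
  have h2 : ‖y‖ ^ 2 + 4 ≠ 0 := by positivity
  have h3 : ‖y'‖ ^ 2 + 4 ≠ 0 := by positivity
  field_simp
  ring

lemma nsub {a b : E} (ha : ‖a‖ = 1) (hb : ‖b‖ = 1) : ‖a - b‖ ^ 2 = 2 - 2 * ⟪a, b⟫ := by
  rw [norm_sub_sq_real, ha, hb]; ring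

lemma dist_q (q : sphere (0:E) 1) (y : Eu n) :
    ‖sg n q y - q‖ ^ 2 = 16 / (‖y‖ ^ 2 + 4) := by
  rw [nsub (norm_sg q y) (norm_q q), inner_sg_q]
  have h2 : ‖y‖ ^ 2 + 4 ≠ 0 := by positivity
  field_simp
  ring

lemma dist_sg (q : sphere (0:E) 1) (y y' : Eu n) :
    ‖sg n q y - sg n q y'‖ ^ 2 = 16 * ‖y - y'‖ ^ 2 / ((‖y‖ ^ 2 + 4) * (‖y'‖ ^ 2 + 4)) := by
  rw [nsub (norm_sg q y) (norm_sg q y'), inner_sg_sg, norm_sub_sq_real]
  have h2 : ‖y‖ ^ 2 + 4 ≠ 0 := by positivity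
  have h3 : ‖y'‖ ^ 2 + 4 ≠ 0 := by positivity
  field_simp
  ring

/-- the quotient of the squared distances from `p` and `q` -/
def Qt (p q z : E) : ℝ := ‖z - p‖ ^ 2 / ‖z - q‖ ^ 2

lemma Qt_sg (q : sphere (0:E) 1) (y y' : Eu n) :
    Qt (sg n q y') (q : E) (sg n q y) = ‖y - y'‖ ^ 2 / (‖y'‖ ^ 2 + 4) := by
  unfold Qt
  rw [dist_q, dist_sg]
  have h2 : ‖y‖ ^ 2 + 4 ≠ 0 := by positivity
  have h3 : ‖y'‖ ^ 2 + 4 ≠ 0 := by positivity
  field_simp

lemma sg_smooth (q : sphere (0:E) 1) : ContDiff ℝ ∞ (sg n q) := by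
  have h : sg n q = fun y => (‖y‖ ^ 2 + 4)⁻¹ •
      ((4:ℝ) • ((U n q).symm y : E) + (‖y‖ ^ 2 - 4) • (q : E)) := by
    funext y; exact sg_eq q y
  rw [h]
  have h1 : ContDiff ℝ ∞ (fun y : Eu n => ‖y‖ ^ 2) := contDiff_norm_sq ℝ
  have h2 : ContDiff ℝ ∞ (fun y : Eu n => ((U n q).symm y : E)) :=
    (Submodule.subtypeL _).contDiff.comp (U n q).symm.contDiff
  refine ContDiff.smul (ContDiff.inv (h1.add contDiff_const) fun y => by positivity) ?_
  exact (contDiff_const.smul h2).add ((h1.sub contDiff_const).smul contDiff_const)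

/-- stereographic projection from `q`, on the ambient space -/
def pr (n : ℕ) [Fact (finrank ℝ E = n + 1)] (q : sphere (0:E) 1) (z : E) : Eu n :=
  U n q (stereoToFun (q : E) z)

lemma pr_eq (q z : sphere (0:E) 1) : pr n q (z : E) = stereographic' n q z := rfl

lemma inner_ne {q z : E} (hq : ‖q‖ = 1) (hz : ‖z‖ = 1) (h : z ≠ q) : ⟪q, z⟫ ≠ 1 := by
  intro h1
  exact h ((inner_eq_one_iff_of_norm_eq_one hq hz).1 h1).symm

lemma pr_smooth (q : sphere (0:E) 1) {z : E} (hz : ‖z‖ = 1) (h : z ≠ q) :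
    ContDiffAt ℝ ∞ (pr n q) z := by
  unfold pr
  have h1 : ContDiffOn ℝ ∞ (stereoToFun (q : E)) {x : E | innerSL _ (q : E) x ≠ (1 : ℝ)} :=
    contDiffOn_stereoToFun
  have h2 : {x : E | innerSL ℝ (q : E) x ≠ (1 : ℝ)} ∈ 𝓝 z := by
    apply IsOpen.mem_nhds
    · exact isOpen_ne_fun (innerSL ℝ (q : E)).continuous continuous_const
    · exact inner_ne (norm_q q) hz h
  exact (U n q).contDiff.contDiffAt.comp z (h1.contDiffAt h2)

lemma pr_sg (q : sphere (0:E) 1) (y : Eu n) : pr n q (sg n q y) = y := by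
  unfold sg
  rw [pr_eq]
  exact (stereographic' n q).right_inv (by simp)

lemma sg_pr (q : sphere (0:E) 1) {z : E} (hz : ‖z‖ = 1) (h : z ≠ q) : sg n q (pr n q z) = z := by
  set z' : sphere (0:E) 1 := ⟨z, by simp [hz]⟩ with hz'
  have h1 : z = (z' : E) := rfl
  rw [h1, pr_eq]
  unfold sg
  rw [(stereographic' n q).left_inv]
  simp only [stereographic'_source, mem_compl_iff, mem_singleton_iff]
  intro h2
  exact h (congrArg Subtype.val h2)

lemma sg_ne (q : sphere (0:E) 1) (y : Eu n) : sg n q y ≠ q := by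
  intro h
  have := dist_q (n := n) q y
  rw [h, sub_self, norm_zero] at this
  have h2 : 0 < 16 / (‖y‖ ^ 2 + 4) := by positivity
  norm_num at this
  linarith

/-- derivative of `sg` hits every tangent vector -/
lemma dsg_surj (q : sphere (0:E) 1) {z v : E} (hz : ‖z‖ = 1) (h : z ≠ q) (hv : ⟪z, v⟫ = 0) :
    fderiv ℝ (sg n q) (pr n q z) (fderiv ℝ (pr n q) z v) = v := by
  -- the curve `(z + t v)/‖z + t v‖`
  have hpos : ∀ t : ℝ, ‖z + t • v‖ ^ 2 = 1 + t ^ 2 * ‖v‖ ^ 2 := by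
    intro t
    rw [norm_add_sq_real, inner_smul_right, hv, norm_smul, hz, mul_pow]
    simp
  have hne : ∀ t : ℝ, ‖z + t • v‖ ≠ 0 := by
    intro t h0
    have := hpos t
    rw [h0] at this
    nlinarith [sq_nonneg (t * ‖v‖)]
  have hnd : HasDerivAt (fun t : ℝ => ‖z + t • v‖) 0 0 := by
    have h1 : (fun t : ℝ => ‖z + t • v‖) = fun t => Real.sqrt (1 + t ^ 2 * ‖v‖ ^ 2) := by
      funext t
      rw [← hpos, Real.sqrt_sq (norm_nonneg _)]
    rw [h1]
    have h2 : HasDerivAt (fun t : ℝ => 1 + t ^ 2 * ‖v‖ ^ 2) 0 0 := by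
      have := ((hasDerivAt_pow 2 (0:ℝ)).mul_const (‖v‖ ^ 2)).const_add 1
      simpa using this
    have := h2.sqrt (by simp)
    simpa using this
  have hγ : HasDerivAt (fun t : ℝ => ‖z + t • v‖⁻¹ • (z + t • v)) v 0 := by
    have h1 : HasDerivAt (fun t : ℝ => z + t • v) v 0 := by
      simpa using ((hasDerivAt_id (0:ℝ)).smul_const v).const_add z
    have h2 := hnd.inv (hne 0)
    have h3 := h2.smul h1
    refine h3.congr_deriv ?_
    simp [hz]
  have hγ0 : ‖z + (0:ℝ) • v‖⁻¹ • (z + (0:ℝ) • v) = z := by simp [hz]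
  have hd1 : DifferentiableAt ℝ (pr n q) z := (pr_smooth q hz h).differentiableAt (by simp)
  have hd2 : DifferentiableAt ℝ (sg n q) (pr n q z) := (sg_smooth q).differentiable (by simp) _
  have hc1 : HasDerivAt (fun t : ℝ => pr n q (‖z + t • v‖⁻¹ • (z + t • v)))
      (fderiv ℝ (pr n q) z v) 0 := by
    have h3 : HasFDerivAt (pr n q) (fderiv ℝ (pr n q) z) (‖z + (0:ℝ) • v‖⁻¹ • (z + (0:ℝ) • v)) := by
      rw [hγ0]; exact hd1.hasFDerivAt
    exact h3.comp_hasDerivAt 0 hγ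
  have hc2 : HasDerivAt (fun t : ℝ => sg n q (pr n q (‖z + t • v‖⁻¹ • (z + t • v))))
      (fderiv ℝ (sg n q) (pr n q z) (fderiv ℝ (pr n q) z v)) 0 := by
    have h3 : HasFDerivAt (sg n q) (fderiv ℝ (sg n q) (pr n q z))
        (pr n q (‖z + (0:ℝ) • v‖⁻¹ • (z + (0:ℝ) • v))) := by
      rw [hγ0]; exact hd2.hasFDerivAt
    exact h3.comp_hasDerivAt 0 hc1
  have hev : (fun t : ℝ => sg n q (pr n q (‖z + t • v‖⁻¹ • (z + t • v)))) =ᶠ[𝓝 0]
      fun t : ℝ => ‖z + t • v‖⁻¹ • (z + t • v) := by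
    have h4 : ∀ᶠ t : ℝ in 𝓝 0, ‖z + t • v‖⁻¹ • (z + t • v) ≠ q := by
      have : Tendsto (fun t : ℝ => ‖z + t • v‖⁻¹ • (z + t • v)) (𝓝 0) (𝓝 z) := by
        have := hγ.continuousAt.tendsto
        rwa [hγ0] at this
      exact this.eventually_ne h
    filter_upwards [h4] with t ht
    refine sg_pr q ?_ ht
    rw [norm_smul, norm_inv, norm_norm, inv_mul_cancel₀ (hne t)]
  exact hc2.unique (hγ.congr_of_eventuallyEq hev)

lemma dpr_dsg (q : sphere (0:E) 1) (y w : Eu n) :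
    fderiv ℝ (pr n q) (sg n q y) (fderiv ℝ (sg n q) y w) = w := by
  have hd1 : DifferentiableAt ℝ (pr n q) (sg n q y) :=
    (pr_smooth q (norm_sg q y) (sg_ne q y)).differentiableAt (by simp)
  have hd2 : DifferentiableAt ℝ (sg n q) y := (sg_smooth q).differentiable (by simp) _
  have h1 := fderiv_comp y hd1 hd2
  have h2 : (pr n q) ∘ (sg n q) = id := by
    funext y; exact pr_sg q y
  rw [h2, fderiv_id] at h1
  exact (DFunLike.congr_fun h1 w).symm

lemma inner_dsg (q : sphere (0:E) 1) (y w : Eu n) :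
    ⟪sg n q y, fderiv ℝ (sg n q) y w⟫ = 0 := by
  have hd2 : HasFDerivAt (sg n q) (fderiv ℝ (sg n q) y) y :=
    ((sg_smooth q).differentiable (by simp) _).hasFDerivAt
  have h1 := hd2.norm_sq
  have h2 : (fun y => ‖sg n q y‖ ^ 2) = fun _ => (1:ℝ) := by
    funext y; rw [norm_sg]; norm_num
  rw [h2] at h1
  have h3 := h1.unique (hasFDerivAt_const (1:ℝ) y)
  have h4 := DFunLike.congr_fun h3 w
  simp at h4
  exact h4

end Pool.Agent.Q100.SS
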